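import Mathlib.GroupTheory.PushoutI
import Mathlib.GroupTheory.HNNExtension
import Mathlib.Tactic

/-!
Amalgams and HNN extensions: elementary obstructions.

* `alt_prod_ne_one`: a nonempty alternating product in an amalgam is nontrivial.
* `amalg_law_fails`: an amalgam in which the base has index at least three on one side
  violates the law `[g ^ 3, h ^ 3] ^ 2 = 1`.
-/

set_option autoImplicit false

namespace Pool.Agent.H14

open Monoid

section Amalg

variable {G : Type} [Group G] {H : Subgroup G} {K : Bool → Subgroup G}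

/-- The list alternates between letters of `K i \ H` and letters of `K (!i) \ H`,
starting with `K i`. -/
def Alt (H : Subgroup G) (K : Bool → Subgroup G) : Bool → List G → Prop
  | _, [] => True
  | i, g :: l => g ∈ K i ∧ g ∉ H ∧ Alt H K (!i) l

theorem alt_word (hK : ∀ i, H ≤ K i)
    (e : Monoid.PushoutI (fun i : Bool => Subgroup.inclusion (hK i)) ≃* G)
    (he : ∀ (i : Bool) (a : K i), e (Monoid.PushoutI.of i a) = (a : G)) :
    ∀ (l : List G) (i : Bool), Alt H K i l →
      ∃ w : CoprodI.Word (fun i : Bool => K i),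
        PushoutI.Reduced (fun i : Bool => Subgroup.inclusion (hK i)) w ∧
        e (PushoutI.ofCoprodI w.prod) = l.prod ∧
        w.toList.length = l.length ∧ w.fstIdx ≠ some (!i) := by
  intro l
  induction l with
  | nil =>
    intro i _
    refine ⟨CoprodI.Word.empty, ?_, ?_, rfl, ?_⟩
    · intro g hg
      simp [CoprodI.Word.empty] at hg
    · simp
    · simp [CoprodI.Word.fstIdx, CoprodI.Word.empty]
  | cons g l ih =>
    intro i hi
    obtain ⟨hg, hgH, hl⟩ := hi
    obtain ⟨w, hw, hprod, hlen, hfst⟩ := ih (!i) hl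
    have hne : (⟨g, hg⟩ : K i) ≠ 1 := by
      intro h
      apply hgH
      have : g = 1 := congrArg Subtype.val h
      rw [this]
      exact H.one_mem
    have hfst' : w.fstIdx ≠ some i := by simpa using hfst
    refine ⟨CoprodI.Word.cons (⟨g, hg⟩ : K i) w hfst' hne, ?_, ?_, ?_, ?_⟩
    · intro x hx
      simp only [CoprodI.Word.cons, List.mem_cons] at hx
      rcases hx with rfl | hx
      · rintro ⟨y, hy⟩
        apply hgH
        have : (y : G) = g := congrArg Subtype.val hy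
        rw [← this]
        exact y.2
      · exact hw x hx
    · rw [CoprodI.Word.prod_cons, map_mul, map_mul, hprod, PushoutI.ofCoprodI_of, he]
      simp
    · simp [CoprodI.Word.cons, hlen]
    · simp [CoprodI.Word.fstIdx, CoprodI.Word.cons]

theorem alt_prod_ne_one (hK : ∀ i, H ≤ K i)
    (e : Monoid.PushoutI (fun i : Bool => Subgroup.inclusion (hK i)) ≃* G)
    (he : ∀ (i : Bool) (a : K i), e (Monoid.PushoutI.of i a) = (a : G))
    (i : Bool) (g : G) (l : List G) (hl : Alt H K i (g :: l)) : (g :: l).prod ≠ 1 := by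
  intro h1
  obtain ⟨w, hw, hprod, hlen, -⟩ := alt_word hK e he (g :: l) i hl
  rw [h1] at hprod
  have h2 : PushoutI.ofCoprodI (φ := fun i : Bool => Subgroup.inclusion (hK i)) w.prod = 1 := by
    apply e.injective
    rw [hprod, map_one]
  have h3 : w = CoprodI.Word.empty := by
    apply hw.eq_empty_of_mem_range
    · intro i
      exact Subgroup.inclusion_injective (hK i)
    · rw [h2]
      exact one_mem _
  rw [h3] at hlen
  simp [CoprodI.Word.empty] at hlen

/-- If the square of `K i \ H` is not inside `H`, there are two letters which are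
independent on both sides. -/
theorem exists_two_letters (i : Bool) (hK : ∀ i, H ≤ K i)
    (hP : ¬ ∀ g ∈ K i, ∀ g' ∈ K i, g ∉ H → g' ∉ H → g * g' ∈ H) :
    ∃ x ∈ K i, ∃ x' ∈ K i, x ∉ H ∧ x' ∉ H ∧ x⁻¹ * x' ∉ H ∧ x' * x⁻¹ ∉ H := by
  by_contra hcon
  apply hP
  intro g₀ hg₀ g₀' hg₀' hg₀H hg₀'H
  by_contra hgg
  -- x = g₀⁻¹
  have hxK : g₀⁻¹ ∈ K i := (K i).inv_mem hg₀
  have hxH : g₀⁻¹ ∉ H := fun h => hg₀H (by simpa using H.inv_mem h)
  have key : ∀ z ∈ K i, z ∉ H → (g₀⁻¹)⁻¹ * z ∉ H → z * (g₀⁻¹)⁻¹ ∈ H := by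
    intro z hz hzH hz1
    by_contra hz2
    exact hcon ⟨g₀⁻¹, hxK, z, hz, hxH, hzH, hz1, hz2⟩
  simp only [inv_inv] at key
  have h1 : g₀' * g₀ ∈ H := key g₀' hg₀' hg₀'H hgg
  -- for every h' in H, g₀⁻¹ * h' ∈ H * g₀⁻¹
  have h2 : ∀ h' ∈ H, g₀⁻¹ * h' * g₀ ∈ H := by
    intro h' hh'
    have hz : g₀' * h' ∈ K i := (K i).mul_mem hg₀' (hK i hh')
    have hzH : g₀' * h' ∉ H := fun h => hg₀'H (by
      have := H.mul_mem h (H.inv_mem hh')
      simpa [mul_assoc] using this)
    have hz1 : g₀ * (g₀' * h') ∉ H := fun h => hgg (by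
      have := H.mul_mem h (H.inv_mem hh')
      simpa [mul_assoc] using this)
    have h3 := key _ hz hzH hz1
    have h4 := H.mul_mem (H.inv_mem h1) h3
    have h5 : (g₀' * g₀)⁻¹ * (g₀' * h' * g₀) = g₀⁻¹ * h' * g₀ := by group
    rwa [h5] at h4
  -- hence every z outside H lies in H * g₀⁻¹
  have h6 : ∀ z ∈ K i, z ∉ H → z * g₀ ∈ H := by
    intro z hz hzH
    by_cases hz1 : g₀ * z ∈ H
    · have h7 := h2 _ hz1
      have h8 : g₀⁻¹ * (g₀ * z) * g₀ = z * g₀ := by group
      rwa [h8] at h7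
    · exact key z hz hzH hz1
  -- conclude
  have h9 := h6 g₀ hg₀ hg₀H
  have h10 : (g₀⁻¹ : G) * g₀⁻¹ ∈ H := by
    have := H.inv_mem h9
    simpa [mul_inv_rev] using this
  have h11 := h6 (g₀'⁻¹) ((K i).inv_mem hg₀') (fun h => hg₀'H (by simpa using H.inv_mem h))
  -- g₀'⁻¹ * g₀ ∈ H so  g₀⁻¹ * g₀' ∈ H
  have h12 : g₀⁻¹ * g₀' ∈ H := by
    have := H.inv_mem h11
    simpa [mul_inv_rev] using this
  have h13 := H.mul_mem h9 h12
  apply hgg
  have h14 : g₀ * g₀ * (g₀⁻¹ * g₀') = g₀ * g₀' := by group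
  rwa [h14] at h13

theorem amalg_law_fails (hK : ∀ i, H ≤ K i)
    (e : Monoid.PushoutI (fun i : Bool => Subgroup.inclusion (hK i)) ≃* G)
    (he : ∀ (i : Bool) (a : K i), e (Monoid.PushoutI.of i a) = (a : G))
    (i : Bool) (x x' y : G) (hx : x ∈ K i) (hx' : x' ∈ K i) (hy : y ∈ K (!i))
    (hxH : x ∉ H) (hx'H : x' ∉ H) (h1 : x⁻¹ * x' ∉ H) (h2 : x' * x⁻¹ ∉ H) (hyH : y ∉ H) :
    ((x * y) ^ 3 * (x' * y) ^ 3 * ((x * y) ^ 3)⁻¹ * ((x' * y) ^ 3)⁻¹) ^ 2 ≠ 1 := by
  have hxi : x⁻¹ ∈ K i := (K i).inv_mem hx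
  have hx'i : x'⁻¹ ∈ K i := (K i).inv_mem hx'
  have hyi : y⁻¹ ∈ K (!i) := (K (!i)).inv_mem hy
  have hxiH : x⁻¹ ∉ H := fun h => hxH (by simpa using H.inv_mem h)
  have hx'iH : x'⁻¹ ∉ H := fun h => hx'H (by simpa using H.inv_mem h)
  have hyiH : y⁻¹ ∉ H := fun h => hyH (by simpa using H.inv_mem h)
  have h3 : x'⁻¹ * x ∉ H := fun h => h1 (by simpa [mul_inv_rev] using H.inv_mem h)
  have hm1 : x' * x⁻¹ ∈ K i := (K i).mul_mem hx' hxi
  have hm2 : x'⁻¹ * x ∈ K i := (K i).mul_mem hx'i hx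
  have halt : Alt H K i
      [x, y, x, y, x, y, x', y, x', y, x' * x⁻¹, y⁻¹, x⁻¹, y⁻¹, x⁻¹, y⁻¹, x'⁻¹, y⁻¹, x'⁻¹, y⁻¹,
       x'⁻¹ * x, y, x, y, x, y, x', y, x', y, x' * x⁻¹, y⁻¹, x⁻¹, y⁻¹, x⁻¹, y⁻¹, x'⁻¹, y⁻¹,
       x'⁻¹, y⁻¹, x'⁻¹] := by
    simp only [Alt, Bool.not_not]
    simp only [hx, hx', hy, hxH, hx'H, h2, h3, hyH, hxi, hx'i, hyi, hxiH, hx'iH, hyiH, hm1, hm2,
      not_false_eq_true, and_self]
  have hne := alt_prod_ne_one hK e he i _ _ halt
  intro hcon
  apply hne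
  rw [← hcon]
  simp only [List.prod_cons, List.prod_nil, pow_succ, pow_zero, one_mul, mul_inv_rev, mul_assoc,
    mul_one, mul_inv_cancel_left]

/-- Homomorphism to signs attached to a subgroup of index at most two. -/
noncomputable def signHom (L : Subgroup G) (H : Subgroup G)
    (hP : ∀ g ∈ L, ∀ g' ∈ L, g ∉ H → g' ∉ H → g * g' ∈ H) : L →* ℤˣ := by
  classical
  exact
  { toFun := fun g => if (g : G) ∈ H then 1 else -1
    map_one' := by simp [H.one_mem]
    map_mul' := by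
      intro a b
      by_cases ha : (a : G) ∈ H <;> by_cases hb : (b : G) ∈ H
      · simp [ha, hb, H.mul_mem ha hb]
      · have : (a : G) * b ∉ H := fun h => hb (by
          have := H.mul_mem (H.inv_mem ha) h
          simpa using this)
        simp [ha, hb, this]
      · have : (a : G) * b ∉ H := fun h => ha (by
          have := H.mul_mem h (H.inv_mem hb)
          simpa [mul_assoc] using this)
        simp [ha, hb, this]
      · simp [ha, hb, hP a a.2 b b.2 ha hb] }

theorem signHom_eq_one {L H : Subgroup G}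
    (hP : ∀ g ∈ L, ∀ g' ∈ L, g ∉ H → g' ∉ H → g * g' ∈ H) (g : L) (hg : (g : G) ∈ H) :
    signHom L H hP g = 1 := by
  classical
  simp [signHom, hg]

theorem signHom_ne_one {L H : Subgroup G}
    (hP : ∀ g ∈ L, ∀ g' ∈ L, g ∉ H → g' ∉ H → g * g' ∈ H) (g : L) (hg : (g : G) ∉ H) :
    signHom L H hP g = -1 := by
  classical
  simp [signHom, hg]

/-- In an amalgam with the base of index two on the side `i`, there is a homomorphism to signs
trivial on `K (!i)` and nontrivial on `K i`. -/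
theorem exists_signHom (hK : ∀ i, H ≤ K i)
    (e : Monoid.PushoutI (fun i : Bool => Subgroup.inclusion (hK i)) ≃* G)
    (he : ∀ (i : Bool) (a : K i), e (Monoid.PushoutI.of i a) = (a : G))
    (i : Bool) (hP : ∀ g ∈ K i, ∀ g' ∈ K i, g ∉ H → g' ∉ H → g * g' ∈ H) :
    ∃ f : G →* ℤˣ, (∀ g ∈ K i, g ∉ H → f g = -1) ∧ (∀ g ∈ K (!i), f g = 1) := by
  classical
  let fam : ∀ j : Bool, K j →* ℤˣ := fun j =>
    if h : j = i then (signHom (K j) H (by subst h; exact hP)) else 1
  let F : Monoid.PushoutI (fun i : Bool => Subgroup.inclusion (hK i)) →* ℤˣ :=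
    PushoutI.lift fam 1 (by
      intro j
      ext h
      by_cases hj : j = i
      · simp only [fam, hj, dif_pos, MonoidHom.comp_apply]
        subst hj
        rw [signHom_eq_one]
        · rfl
        · exact h.2
      · simp [fam, hj])
  have hF : ∀ (j : Bool) (a : K j), F (PushoutI.of j a) = fam j a := by
    intro j a
    exact PushoutI.lift_of _ _ _ _
  refine ⟨F.comp e.symm.toMonoidHom, ?_, ?_⟩
  · intro g hg hgH
    have h1 : e.symm g = PushoutI.of i ⟨g, hg⟩ := by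
      rw [MulEquiv.symm_apply_eq, he]
    have h2 : (F.comp e.symm.toMonoidHom) g = F (e.symm g) := rfl
    rw [h2, h1, hF]
    simp only [fam, dif_pos]
    exact signHom_ne_one _ _ hgH
  · intro g hg
    have h1 : e.symm g = PushoutI.of (!i) ⟨g, hg⟩ := by
      rw [MulEquiv.symm_apply_eq, he]
    have h2 : (F.comp e.symm.toMonoidHom) g = F (e.symm g) := rfl
    rw [h2, h1, hF]
    have h3 : (!i) ≠ i := by cases i <;> simp
    simp [fam]

/-- Main obstruction: a group satisfying `[g ^ 3, h ^ 3] ^ 2 = 1` with at most one nontrivial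
homomorphism to signs is not a nontrivial amalgam. -/
theorem no_amalgam (hK : ∀ i, H ≤ K i) (hne : ∀ i, H ≠ K i)
    (e : Monoid.PushoutI (fun i : Bool => Subgroup.inclusion (hK i)) ≃* G)
    (he : ∀ (i : Bool) (a : K i), e (Monoid.PushoutI.of i a) = (a : G))
    (hlaw : ∀ g h : G, (g ^ 3 * h ^ 3 * (g ^ 3)⁻¹ * (h ^ 3)⁻¹) ^ 2 = 1)
    (hsign : ∀ f f' : G →* ℤˣ, f = 1 ∨ f' = 1 ∨ f = f') : False := by
  have hex : ∀ i, ∃ y ∈ K i, y ∉ H := by
    intro i
    by_contra hcon
    push Not at hcon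
    exact hne i (le_antisymm (hK i) hcon)
  have hP : ∀ i, ∀ g ∈ K i, ∀ g' ∈ K i, g ∉ H → g' ∉ H → g * g' ∈ H := by
    intro i
    by_contra hP
    obtain ⟨x, hx, x', hx', hxH, hx'H, h1, h2⟩ := exists_two_letters i hK hP
    obtain ⟨y, hy, hyH⟩ := hex (!i)
    exact amalg_law_fails hK e he i x x' y hx hx' hy hxH hx'H h1 h2 hyH (hlaw _ _)
  obtain ⟨f, hf1, hf2⟩ := exists_signHom hK e he true (hP true)
  obtain ⟨f', hf1', hf2'⟩ := exists_signHom hK e he false (hP false)
  obtain ⟨y, hy, hyH⟩ := hex true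
  obtain ⟨y', hy', hyH'⟩ := hex false
  rcases hsign f f' with h | h | h
  · have := hf1 y hy hyH
    rw [h, MonoidHom.one_apply] at this
    exact absurd this (by decide)
  · have := hf1' y' hy' hyH'
    rw [h, MonoidHom.one_apply] at this
    exact absurd this (by decide)
  · have h1 := hf1 y hy hyH
    have h2 := hf2' y hy
    rw [h, h2] at h1
    exact absurd h1 (by decide)

end Amalg

/-- A group all of whose homomorphisms to the integers are trivial is not an HNN extension. -/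
theorem no_hnn {G : Type} [Group G] (A : Subgroup G) (B₁ B₂ : Subgroup A) (φ : B₁ ≃* B₂)
    (e : HNNExtension A B₁ B₂ φ ≃* G)
    (hZ : ∀ f : G →* Multiplicative ℤ, f = 1) : False := by
  let F : HNNExtension A B₁ B₂ φ →* Multiplicative ℤ :=
    HNNExtension.lift 1 (Multiplicative.ofAdd 1) (by intro a; simp)
  have h1 : F HNNExtension.t = Multiplicative.ofAdd 1 := HNNExtension.lift_t _ _ _
  have h2 := hZ (F.comp e.symm.toMonoidHom)
  have h3 : (F.comp e.symm.toMonoidHom) (e HNNExtension.t) = 1 := by rw [h2]; rfl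
  have h4 : (F.comp e.symm.toMonoidHom) (e HNNExtension.t) = F (e.symm (e HNNExtension.t)) := rfl
  rw [h4, MulEquiv.symm_apply_apply, h1] at h3
  have h5 : (1 : ℤ) = 0 := congrArg Multiplicative.toAdd h3
  exact absurd h5 (by decide)

end Pool.Agent.H14
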