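import Mathlib

/-!
The triangle group `Z^2 x| Z/3` and the lamplighter group over it.
-/

set_option autoImplicit false

namespace Pool.Agent.H14

open scoped Pointwise symmDiff

/-- The crystallographic group `Z^2 x| Z/3`; the generator of `Z/3` acts by
multiplication by a primitive cube root of unity in the basis `1, w`. -/
@[ext]
structure TriGp where
  x : ℤ
  y : ℤ
  k : ZMod 3
deriving DecidableEq

namespace TriGp

/-- first coordinate of the rotated vector -/
def rx (k : ZMod 3) (a b : ℤ) : ℤ := if k = 0 then a else if k = 1 then -b else b - a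
/-- second coordinate of the rotated vector -/
def ry (k : ZMod 3) (a b : ℤ) : ℤ := if k = 0 then b else if k = 1 then a - b else -a

theorem cases3 (k : ZMod 3) : k = 0 ∨ k = 1 ∨ k = 2 := by
  revert k; decide

theorem two_ne_zero' : (2 : ZMod 3) ≠ 0 := by decide
theorem two_ne_one' : (2 : ZMod 3) ≠ 1 := by decide
theorem one_ne_zero' : (1 : ZMod 3) ≠ 0 := by decide

@[simp] theorem rx0 (a b : ℤ) : rx 0 a b = a := by simp [rx]
@[simp] theorem ry0 (a b : ℤ) : ry 0 a b = b := by simp [ry]
@[simp] theorem rx1 (a b : ℤ) : rx 1 a b = -b := by simp [rx]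
@[simp] theorem ry1 (a b : ℤ) : ry 1 a b = a - b := by simp [ry]
@[simp] theorem rx2 (a b : ℤ) : rx 2 a b = b - a := by simp [rx, two_ne_zero', two_ne_one']
@[simp] theorem ry2 (a b : ℤ) : ry 2 a b = -a := by simp [ry, two_ne_zero', two_ne_one']

theorem rx_comp (k l : ZMod 3) (a b : ℤ) : rx k (rx l a b) (ry l a b) = rx (k + l) a b := by
  have h11 : (1 : ZMod 3) + 1 = 2 := by decide
  have h12 : (1 : ZMod 3) + 2 = 0 := by decide
  have h21 : (2 : ZMod 3) + 1 = 0 := by decide
  have h22 : (2 : ZMod 3) + 2 = 1 := by decide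
  rcases cases3 k with rfl | rfl | rfl <;> rcases cases3 l with rfl | rfl | rfl <;>
    simp only [h11, h12, h21, h22, rx0, rx1, rx2, ry0, ry1, ry2, zero_add, add_zero] <;> ring

theorem ry_comp (k l : ZMod 3) (a b : ℤ) : ry k (rx l a b) (ry l a b) = ry (k + l) a b := by
  have h11 : (1 : ZMod 3) + 1 = 2 := by decide
  have h12 : (1 : ZMod 3) + 2 = 0 := by decide
  have h21 : (2 : ZMod 3) + 1 = 0 := by decide
  have h22 : (2 : ZMod 3) + 2 = 1 := by decide
  rcases cases3 k with rfl | rfl | rfl <;> rcases cases3 l with rfl | rfl | rfl <;>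
    simp only [h11, h12, h21, h22, rx0, rx1, rx2, ry0, ry1, ry2, zero_add, add_zero] <;> ring

theorem rx_add (k : ZMod 3) (a b c d : ℤ) : rx k (a + c) (b + d) = rx k a b + rx k c d := by
  rcases cases3 k with rfl | rfl | rfl <;> simp <;> ring

theorem ry_add (k : ZMod 3) (a b c d : ℤ) : ry k (a + c) (b + d) = ry k a b + ry k c d := by
  rcases cases3 k with rfl | rfl | rfl <;> simp <;> ring

theorem rx_zero (k : ZMod 3) : rx k 0 0 = 0 := by
  rcases cases3 k with rfl | rfl | rfl <;> simp

theorem ry_zero (k : ZMod 3) : ry k 0 0 = 0 := by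
  rcases cases3 k with rfl | rfl | rfl <;> simp

theorem rx_neg (k : ZMod 3) (a b : ℤ) : rx k (-a) (-b) = - rx k a b := by
  rcases cases3 k with rfl | rfl | rfl <;> simp only [rx0, rx1, rx2] <;> ring

theorem ry_neg (k : ZMod 3) (a b : ℤ) : ry k (-a) (-b) = - ry k a b := by
  rcases cases3 k with rfl | rfl | rfl <;> simp only [ry0, ry1, ry2] <;> ring

instance : Mul TriGp := ⟨fun p q => ⟨p.x + rx p.k q.x q.y, p.y + ry p.k q.x q.y, p.k + q.k⟩⟩
instance : One TriGp := ⟨⟨0, 0, 0⟩⟩
instance : Inv TriGp := ⟨fun p => ⟨- rx (-p.k) p.x p.y, - ry (-p.k) p.x p.y, -p.k⟩⟩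

@[simp] theorem mul_x (p q : TriGp) : (p * q).x = p.x + rx p.k q.x q.y := rfl
@[simp] theorem mul_y (p q : TriGp) : (p * q).y = p.y + ry p.k q.x q.y := rfl
@[simp] theorem mul_k (p q : TriGp) : (p * q).k = p.k + q.k := rfl
@[simp] theorem one_x : (1 : TriGp).x = 0 := rfl
@[simp] theorem one_y : (1 : TriGp).y = 0 := rfl
@[simp] theorem one_k : (1 : TriGp).k = 0 := rfl
@[simp] theorem inv_x (p : TriGp) : (p⁻¹).x = - rx (-p.k) p.x p.y := rfl
@[simp] theorem inv_y (p : TriGp) : (p⁻¹).y = - ry (-p.k) p.x p.y := rfl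
@[simp] theorem inv_k (p : TriGp) : (p⁻¹).k = -p.k := rfl

instance : Group TriGp :=
  Group.ofLeftAxioms
    (by
      intro p q r
      ext
      · simp only [mul_x, mul_y, mul_k]
        rw [rx_add, rx_comp]; ring
      · simp only [mul_x, mul_y, mul_k]
        rw [ry_add, ry_comp]; ring
      · simp only [mul_k]; ring)
    (by intro p; ext <;> simp)
    (by
      intro p
      ext
      · simp
      · simp
      · simp)

/-- the two basic translations -/
def t1 : TriGp := ⟨1, 0, 0⟩
def t2 : TriGp := ⟨0, 1, 0⟩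
/-- the rotation -/
def rho : TriGp := ⟨0, 0, 1⟩

/-- translations -/
def tr (a b : ℤ) : TriGp := ⟨a, b, 0⟩

theorem tr_mul (a b c d : ℤ) : tr a b * tr c d = tr (a + c) (b + d) := by
  ext <;> simp [tr]

theorem cube_k (p : TriGp) : (p ^ 3).k = 0 := by
  have : (p ^ 3).k = p.k + p.k + p.k := by
    simp [pow_succ]
  rw [this]
  generalize p.k = k
  revert k
  decide

theorem comm_of_k (p q : TriGp) (hp : p.k = 0) (hq : q.k = 0) : p * q = q * p := by
  ext
  · simp [hp, hq]; ring
  · simp [hp, hq]; ring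
  · simp [hp, hq]

theorem rho_cube : rho ^ 3 = 1 := by
  decide

theorem t1rho_cube : (t1 * rho) ^ 3 = 1 := by
  decide

theorem t2rho_cube : (t2 * rho) ^ 3 = 1 := by
  decide

end TriGp

/-- The lamplighter group with lamp group of order two over the triangle group:
pairs (finite set of lit lamps, position). -/
@[ext]
structure LampGp where
  s : Finset TriGp
  q : TriGp
deriving DecidableEq

namespace LampGp

instance : Mul LampGp := ⟨fun g h => ⟨g.s ∆ (g.q • h.s), g.q * h.q⟩⟩
instance : One LampGp := ⟨⟨∅, 1⟩⟩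
instance : Inv LampGp := ⟨fun g => ⟨g.q⁻¹ • g.s, g.q⁻¹⟩⟩

@[simp] theorem mul_s (g h : LampGp) : (g * h).s = g.s ∆ (g.q • h.s) := rfl
@[simp] theorem mul_q (g h : LampGp) : (g * h).q = g.q * h.q := rfl
@[simp] theorem one_s : (1 : LampGp).s = ∅ := rfl
@[simp] theorem one_q : (1 : LampGp).q = 1 := rfl
@[simp] theorem inv_s (g : LampGp) : (g⁻¹).s = g.q⁻¹ • g.s := rfl
@[simp] theorem inv_q (g : LampGp) : (g⁻¹).q = g.q⁻¹ := rfl

theorem symmDiff_empty' (s : Finset TriGp) : s ∆ ∅ = s := by
  rw [← Finset.bot_eq_empty, symmDiff_bot]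

theorem empty_symmDiff' (s : Finset TriGp) : ∅ ∆ s = s := by
  rw [← Finset.bot_eq_empty, bot_symmDiff]

instance : Group LampGp :=
  Group.ofLeftAxioms
    (by
      intro a b c
      ext1
      · simp only [mul_s, mul_q]
        rw [Finset.smul_finset_symmDiff, smul_smul, symmDiff_assoc]
      · simp only [mul_q, mul_assoc])
    (by
      intro a
      ext1
      · simp only [mul_s, one_s, one_q, one_smul]
        exact empty_symmDiff' _
      · simp)
    (by
      intro a
      ext1
      · simp [mul_s, inv_s, inv_q]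
      · simp)

/-- toggle the lamp at the current position -/
def tog : LampGp := ⟨{1}, 1⟩
/-- move -/
def mv (q : TriGp) : LampGp := ⟨∅, q⟩

/-- the generating set -/
def gens : Finset LampGp := {tog, mv TriGp.t1, mv TriGp.t2, mv TriGp.rho}

theorem mv_mul (p q : TriGp) : mv p * mv q = mv (p * q) := by
  ext1
  · simp only [mul_s, mv, Finset.smul_finset_empty]
    exact empty_symmDiff' _
  · simp [mv]

end LampGp

end Pool.Agent.H14
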