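import Mathlib.Algebra.BigOperators.Group.Finset.Basic
import Mathlib.Tactic

/-!
A two dimensional Sperner lemma on a square grid.
-/

set_option autoImplicit false

namespace Pool.Agent.H14

/-- Signed step between two colours. -/
def wd (a b : Fin 3) : ℤ :=
  if b = a then 0 else if b = a + 1 then 1 else -1

theorem wd_add (a b c : Fin 3) (h : ¬ (a ≠ b ∧ b ≠ c ∧ a ≠ c)) : wd a b + wd b c = wd a c := by
  revert h
  revert a b c
  decide

theorem wd_tele (g : Fin 3 → ℤ) (a : Fin 3)
    (hg : ∀ u v, u ≠ a → v ≠ a → wd u v = g v - g u) (f : ℕ → Fin 3) (N : ℕ)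
    (hf : ∀ i ≤ N, f i ≠ a) :
    ∑ i ∈ Finset.range N, wd (f i) (f (i + 1)) = g (f N) - g (f 0) := by
  induction N with
  | zero => simp
  | succ n ih =>
    rw [Finset.sum_range_succ, ih (fun i hi => hf i (by omega)),
      hg _ _ (hf n (by omega)) (hf (n + 1) le_rfl)]
    ring

theorem sperner_square (N : ℕ) (c : ℕ → ℕ → Fin 3)
    (h0 : ∀ i ≤ N, c i 0 ≠ 0) (h1 : ∀ j ≤ N, c N j ≠ 1)
    (h2 : ∀ i ≤ N, c i N ≠ 2) (h3 : ∀ j ≤ N, c 0 j ≠ 2) :
    ∃ i < N, ∃ j < N,
      (c i j ≠ c (i + 1) j ∧ c (i + 1) j ≠ c (i + 1) (j + 1) ∧ c i j ≠ c (i + 1) (j + 1)) ∨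
      (c i j ≠ c i (j + 1) ∧ c i (j + 1) ≠ c (i + 1) (j + 1) ∧ c i j ≠ c (i + 1) (j + 1)) := by
  by_contra hcon
  push Not at hcon
  have hsq : ∀ i < N, ∀ j < N, wd (c i j) (c (i + 1) j) + wd (c (i + 1) j) (c (i + 1) (j + 1)) =
      wd (c i j) (c i (j + 1)) + wd (c i (j + 1)) (c (i + 1) (j + 1)) := by
    intro i hi j hj
    obtain ⟨ha, hb⟩ := hcon i hi j hj
    rw [wd_add, wd_add]
    · rintro ⟨p, q, r⟩
      exact r (hb p q)
    · rintro ⟨p, q, r⟩
      exact r (ha p q)
  have hrow : ∀ j < N, ∀ i ≤ N,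
      ∑ k ∈ Finset.range i, wd (c k j) (c (k + 1) j) + wd (c i j) (c i (j + 1)) =
      wd (c 0 j) (c 0 (j + 1)) +
        ∑ k ∈ Finset.range i, wd (c k (j + 1)) (c (k + 1) (j + 1)) := by
    intro j hj i
    induction i with
    | zero => intro _; simp
    | succ i ih =>
      intro hi
      have h4 := ih (by omega)
      have h5 := hsq i (by omega) j hj
      rw [Finset.sum_range_succ, Finset.sum_range_succ]
      linarith
  have hcol : ∀ j ≤ N,
      ∑ k ∈ Finset.range N, wd (c k 0) (c (k + 1) 0) +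
        ∑ l ∈ Finset.range j, wd (c N l) (c N (l + 1)) =
      ∑ l ∈ Finset.range j, wd (c 0 l) (c 0 (l + 1)) +
        ∑ k ∈ Finset.range N, wd (c k j) (c (k + 1) j) := by
    intro j
    induction j with
    | zero => intro _; simp
    | succ j ih =>
      intro hj
      have h4 := ih (by omega)
      have h5 := hrow j (by omega) N le_rfl
      rw [Finset.sum_range_succ, Finset.sum_range_succ]
      linarith
  have hN := hcol N le_rfl
  have e1 := wd_tele ![0, 1, 2] 0 (by decide) (fun i => c i 0) N h0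
  have e2 := wd_tele ![3, 0, 2] 1 (by decide) (fun j => c N j) N h1
  have e3 := wd_tele ![0, 1, 0] 2 (by decide) (fun i => c i N) N h2
  have e4 := wd_tele ![0, 1, 0] 2 (by decide) (fun j => c 0 j) N h3
  beta_reduce at e1 e2 e3 e4
  rw [e1, e2, e3, e4] at hN
  have c00 : c 0 0 = 1 := by
    have p := h0 0 (by omega)
    have q := h3 0 (by omega)
    revert p q
    generalize c 0 0 = a
    revert a
    decide
  have cN0 : c N 0 = 2 := by
    have p := h0 N (by omega)
    have q := h1 0 (by omega)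
    revert p q
    generalize c N 0 = a
    revert a
    decide
  have cNN : c N N = 0 := by
    have p := h1 N (by omega)
    have q := h2 N (by omega)
    revert p q
    generalize c N N = a
    revert a
    decide
  rw [c00, cN0, cNN] at hN
  generalize c 0 N = a at hN
  revert hN
  revert a
  decide

end Pool.Agent.H14
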