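import Mathlib
import Pool.Agent.H14.AmalgLaw
import Pool.Agent.H14.Sperner2
import Pool.Agent.H14.Lamp

/-!
Geometry and algebra of the lamplighter group over the triangle group.
-/

set_option autoImplicit false

namespace Pool.Agent.H14

open scoped Pointwise symmDiff

namespace LampGp

/-- moves as a homomorphism -/
def mvHom : TriGp →* LampGp where
  toFun := mv
  map_one' := rfl
  map_mul' p q := (mv_mul p q).symm

@[simp] theorem mvHom_apply (p : TriGp) : mvHom p = mv p := rfl

theorem tog_mem : tog ∈ gens := by simp [gens]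
theorem t1_mem : mv TriGp.t1 ∈ gens := by simp [gens]
theorem t2_mem : mv TriGp.t2 ∈ gens := by simp [gens]
theorem rho_mem : mv TriGp.rho ∈ gens := by simp [gens]

theorem tr_x_mem (C : Subgroup TriGp) (h : TriGp.t1 ∈ C) (a : ℤ) : TriGp.tr a 0 ∈ C := by
  have h1 : ∀ n : ℕ, TriGp.tr n 0 ∈ C := by
    intro n
    induction n with
    | zero => exact C.one_mem
    | succ n ih =>
      have h2 : TriGp.tr ((n + 1 : ℕ) : ℤ) 0 = TriGp.tr n 0 * TriGp.t1 := by
        ext <;> simp [TriGp.tr, TriGp.t1]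
      rw [h2]
      exact C.mul_mem ih h
  rcases Int.eq_nat_or_neg a with ⟨n, rfl | rfl⟩
  · exact h1 n
  · have h3 : TriGp.tr (-(n : ℤ)) 0 = (TriGp.tr n 0)⁻¹ := by
      ext <;> simp [TriGp.tr]
    rw [h3]
    exact C.inv_mem (h1 n)

theorem tr_y_mem (C : Subgroup TriGp) (h : TriGp.t2 ∈ C) (a : ℤ) : TriGp.tr 0 a ∈ C := by
  have h1 : ∀ n : ℕ, TriGp.tr 0 n ∈ C := by
    intro n
    induction n with
    | zero => exact C.one_mem
    | succ n ih =>
      have h2 : TriGp.tr 0 ((n + 1 : ℕ) : ℤ) = TriGp.tr 0 n * TriGp.t2 := by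
        ext <;> simp [TriGp.tr, TriGp.t2]
      rw [h2]
      exact C.mul_mem ih h
  rcases Int.eq_nat_or_neg a with ⟨n, rfl | rfl⟩
  · exact h1 n
  · have h3 : TriGp.tr 0 (-(n : ℤ)) = (TriGp.tr 0 n)⁻¹ := by
      ext <;> simp [TriGp.tr]
    rw [h3]
    exact C.inv_mem (h1 n)

theorem tri_gen (C : Subgroup TriGp) (h1 : TriGp.t1 ∈ C) (h2 : TriGp.t2 ∈ C)
    (h3 : TriGp.rho ∈ C) (q : TriGp) : q ∈ C := by
  have hx := tr_x_mem C h1 q.x
  have hy := tr_y_mem C h2 q.y
  have hxy : TriGp.tr q.x q.y ∈ C := by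
    have : TriGp.tr q.x q.y = TriGp.tr q.x 0 * TriGp.tr 0 q.y := by
      rw [TriGp.tr_mul]; simp
    rw [this]
    exact C.mul_mem hx hy
  rcases TriGp.cases3 q.k with hk | hk | hk
  · have : q = TriGp.tr q.x q.y := by ext <;> simp [TriGp.tr, hk]
    rw [this]; exact hxy
  · have : q = TriGp.tr q.x q.y * TriGp.rho := by ext <;> simp [TriGp.tr, TriGp.rho, hk]
    rw [this]; exact C.mul_mem hxy h3
  · have : q = TriGp.tr q.x q.y * (TriGp.rho * TriGp.rho) := by
      ext
      · simp [TriGp.tr, TriGp.rho]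
      · simp [TriGp.tr, TriGp.rho]
      · simp only [TriGp.tr, TriGp.rho, TriGp.mul_k, hk]; decide
    rw [this]; exact C.mul_mem hxy (C.mul_mem h3 h3)

theorem closure_gens : Subgroup.closure (gens : Set LampGp) = ⊤ := by
  rw [eq_top_iff]
  intro g _
  set C := Subgroup.closure (gens : Set LampGp) with hC
  have ht : tog ∈ C := Subgroup.subset_closure (by exact_mod_cast tog_mem)
  have hmv : ∀ q, mv q ∈ C := by
    intro q
    have := tri_gen (C.comap mvHom) ?_ ?_ ?_ q
    · exact this
    · exact Subgroup.subset_closure (by exact_mod_cast t1_mem)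
    · exact Subgroup.subset_closure (by exact_mod_cast t2_mem)
    · exact Subgroup.subset_closure (by exact_mod_cast rho_mem)
  have hsing : ∀ p : TriGp, (⟨{p}, 1⟩ : LampGp) ∈ C := by
    intro p
    have h1 : (⟨{p}, 1⟩ : LampGp) = mv p * tog * (mv p)⁻¹ := by
      ext1
      · simp only [mul_s, mv, tog, inv_s, Finset.smul_finset_empty, Finset.smul_finset_singleton,
          smul_eq_mul, mul_one]
        rw [symmDiff_empty', empty_symmDiff']
      · simp [mv, tog]
    rw [h1]
    exact C.mul_mem (C.mul_mem (hmv p) ht) (C.inv_mem (hmv p))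
  have hfin : ∀ s : Finset TriGp, (⟨s, 1⟩ : LampGp) ∈ C := by
    intro s
    induction s using Finset.induction_on with
    | empty => exact C.one_mem
    | insert p s hp ih =>
      have h1 : (⟨insert p s, 1⟩ : LampGp) = ⟨{p}, 1⟩ * ⟨s, 1⟩ := by
        ext1
        · simp only [mul_s, one_smul]
          ext a
          simp only [Finset.mem_insert, Finset.mem_symmDiff, Finset.mem_singleton]
          constructor
          · rintro (h | h)
            · left; exact ⟨h, by rw [h]; exact hp⟩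
            · right; exact ⟨h, by rintro rfl; exact hp h⟩
          · rintro (h | h)
            · exact Or.inl h.1
            · exact Or.inr h.1
        · simp
      rw [h1]
      exact C.mul_mem (hsing p) ih
  have h2 : g = ⟨g.s, 1⟩ * mv g.q := by
    ext1
    · simp only [mul_s, mv, Finset.smul_finset_empty]
      rw [symmDiff_empty']
    · simp [mv]
  rw [h2]
  exact C.mul_mem (hfin _) (hmv _)

/-- projection to the position -/
def qHom : LampGp →* TriGp where
  toFun := LampGp.q
  map_one' := rfl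
  map_mul' _ _ := rfl

theorem sq_of_q_one (g : LampGp) (hg : g.q = 1) : g ^ 2 = 1 := by
  rw [pow_two]
  ext1
  · simp [hg]
  · simp [hg]

theorem law (g h : LampGp) : (g ^ 3 * h ^ 3 * (g ^ 3)⁻¹ * (h ^ 3)⁻¹) ^ 2 = 1 := by
  apply sq_of_q_one
  have h1 : (g ^ 3 * h ^ 3 * (g ^ 3)⁻¹ * (h ^ 3)⁻¹).q =
      g.q ^ 3 * h.q ^ 3 * (g.q ^ 3)⁻¹ * (h.q ^ 3)⁻¹ := by
    change qHom (g ^ 3 * h ^ 3 * (g ^ 3)⁻¹ * (h ^ 3)⁻¹) = _
    rw [map_mul, map_mul, map_mul, map_inv, map_inv, map_pow, map_pow]
    rfl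
  rw [h1]
  have h2 := TriGp.comm_of_k (g.q ^ 3) (h.q ^ 3) (TriGp.cube_k _) (TriGp.cube_k _)
  rw [h2]
  group

theorem tog_sq : tog ^ 2 = 1 := sq_of_q_one _ rfl

theorem mv_rho_cube : (mv TriGp.rho) ^ 3 = 1 := by
  rw [← mvHom_apply, ← map_pow, TriGp.rho_cube, map_one]

theorem mv_t1rho_cube : (mv TriGp.t1 * mv TriGp.rho) ^ 3 = 1 := by
  rw [mv_mul, ← mvHom_apply, ← map_pow, TriGp.t1rho_cube, map_one]

theorem mv_t2rho_cube : (mv TriGp.t2 * mv TriGp.rho) ^ 3 = 1 := by
  rw [mv_mul, ← mvHom_apply, ← map_pow, TriGp.t2rho_cube, map_one]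

theorem unit_cube (u : ℤˣ) (h : u ^ 3 = 1) : u = 1 := by
  revert h; revert u; decide

theorem sign_mv (f : LampGp →* ℤˣ) :
    f (mv TriGp.t1) = 1 ∧ f (mv TriGp.t2) = 1 ∧ f (mv TriGp.rho) = 1 := by
  have h1 : f (mv TriGp.rho) = 1 := by
    apply unit_cube
    rw [← map_pow, mv_rho_cube, map_one]
  have h2 : f (mv TriGp.t1 * mv TriGp.rho) = 1 := by
    apply unit_cube
    rw [← map_pow, mv_t1rho_cube, map_one]
  have h3 : f (mv TriGp.t2 * mv TriGp.rho) = 1 := by
    apply unit_cube
    rw [← map_pow, mv_t2rho_cube, map_one]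
  rw [map_mul, h1, mul_one] at h2 h3
  exact ⟨h2, h3, h1⟩

theorem eq_of_gens {M : Type} [Group M] (f f' : LampGp →* M) (h : ∀ u ∈ gens, f u = f' u) :
    f = f' := by
  apply MonoidHom.eq_of_eqOn_dense closure_gens
  intro u hu
  exact h u (by exact_mod_cast hu)

theorem mem_gens_cases {u : LampGp} (hu : u ∈ gens) :
    u = tog ∨ u = mv TriGp.t1 ∨ u = mv TriGp.t2 ∨ u = mv TriGp.rho := by
  simpa [gens] using hu

theorem sign_homs (f f' : LampGp →* ℤˣ) : f = 1 ∨ f' = 1 ∨ f = f' := by
  obtain ⟨h1, h2, h3⟩ := sign_mv f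
  obtain ⟨h1', h2', h3'⟩ := sign_mv f'
  rcases Int.units_eq_one_or (f tog) with h | h
  · left
    apply eq_of_gens
    intro u hu
    rcases mem_gens_cases hu with rfl | rfl | rfl | rfl <;> simp [*]
  · rcases Int.units_eq_one_or (f' tog) with h' | h'
    · right; left
      apply eq_of_gens
      intro u hu
      rcases mem_gens_cases hu with rfl | rfl | rfl | rfl <;> simp [*]
    · right; right
      apply eq_of_gens
      intro u hu
      rcases mem_gens_cases hu with rfl | rfl | rfl | rfl <;> simp [*]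

theorem int_tors (z : Multiplicative ℤ) (n : ℕ) (hn : n ≠ 0) (h : z ^ n = 1) : z = 1 := by
  have h1 : (n : ℤ) * Multiplicative.toAdd z = 0 := by
    have := congrArg Multiplicative.toAdd h
    simpa using this
  have h2 : Multiplicative.toAdd z = 0 := by
    rcases mul_eq_zero.mp h1 with h3 | h3
    · exact absurd (by exact_mod_cast h3) hn
    · exact h3
  exact h2

theorem int_homs (f : LampGp →* Multiplicative ℤ) : f = 1 := by
  have h0 : f tog = 1 := by
    apply int_tors _ 2 (by norm_num)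
    rw [← map_pow, tog_sq, map_one]
  have h1 : f (mv TriGp.rho) = 1 := by
    apply int_tors _ 3 (by norm_num)
    rw [← map_pow, mv_rho_cube, map_one]
  have h2 : f (mv TriGp.t1 * mv TriGp.rho) = 1 := by
    apply int_tors _ 3 (by norm_num)
    rw [← map_pow, mv_t1rho_cube, map_one]
  have h3 : f (mv TriGp.t2 * mv TriGp.rho) = 1 := by
    apply int_tors _ 3 (by norm_num)
    rw [← map_pow, mv_t2rho_cube, map_one]
  rw [map_mul, h1, mul_one] at h2 h3
  apply eq_of_gens
  intro u hu
  rcases mem_gens_cases hu with rfl | rfl | rfl | rfl <;> simp [*]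

/-! ### The Cayley graph -/

/-- The Cayley graph. -/
def Cay : SimpleGraph LampGp := SimpleGraph.fromRel (fun g h : LampGp => g⁻¹ * h ∈ gens)

/-- One step in the Cayley graph: toggle at the current position or move by a bounded amount. -/
def Near (g h : LampGp) : Prop :=
  (g.q = h.q ∧ g.s ∆ h.s = {g.q}) ∨ (g.s = h.s ∧ |g.q.x - h.q.x| ≤ 1 ∧ |g.q.y - h.q.y| ≤ 1)

theorem near_symm {g h : LampGp} (hgh : Near g h) : Near h g := by
  rcases hgh with ⟨h1, h2⟩ | ⟨h1, h2, h3⟩
  · left
    refine ⟨h1.symm, ?_⟩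
    rw [symmDiff_comm, h2, h1]
  · right
    refine ⟨h1.symm, ?_, ?_⟩
    · rw [abs_sub_comm]; exact h2
    · rw [abs_sub_comm]; exact h3

theorem near_mul (g u : LampGp) (hu : u ∈ gens) : Near g (g * u) := by
  rcases mem_gens_cases hu with rfl | rfl | rfl | rfl
  · left
    constructor
    · simp [tog]
    · simp only [mul_s, tog, Finset.smul_finset_singleton, smul_eq_mul, mul_one]
      rw [symmDiff_symmDiff_cancel_left]
  · right
    refine ⟨?_, ?_, ?_⟩
    · simp only [mul_s, mv, Finset.smul_finset_empty]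
      rw [symmDiff_empty']
    · simp only [mul_q, mv, TriGp.mul_x, TriGp.t1]
      rcases TriGp.cases3 g.q.k with h | h | h <;> simp [h]
    · simp only [mul_q, mv, TriGp.mul_y, TriGp.t1]
      rcases TriGp.cases3 g.q.k with h | h | h <;> simp [h]
  · right
    refine ⟨?_, ?_, ?_⟩
    · simp only [mul_s, mv, Finset.smul_finset_empty]
      rw [symmDiff_empty']
    · simp only [mul_q, mv, TriGp.mul_x, TriGp.t2]
      rcases TriGp.cases3 g.q.k with h | h | h <;> simp [h]
    · simp only [mul_q, mv, TriGp.mul_y, TriGp.t2]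
      rcases TriGp.cases3 g.q.k with h | h | h <;> simp [h]
  · right
    refine ⟨?_, ?_, ?_⟩
    · simp only [mul_s, mv, Finset.smul_finset_empty]
      rw [symmDiff_empty']
    · simp only [mul_q, mv, TriGp.mul_x, TriGp.rho, TriGp.rx_zero]
      simp
    · simp only [mul_q, mv, TriGp.mul_y, TriGp.rho, TriGp.ry_zero]
      simp

theorem near_of_adj {g h : LampGp} (hgh : Cay.Adj g h) : Near g h := by
  simp only [Cay, SimpleGraph.fromRel_adj] at hgh
  obtain ⟨-, h1 | h1⟩ := hgh
  · have := near_mul g _ h1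
    rwa [mul_inv_cancel_left] at this
  · have := near_mul h _ h1
    rw [mul_inv_cancel_left] at this
    exact near_symm this

theorem reach_gen (g u : LampGp) (hu : u ∈ gens) : Cay.Reachable g (g * u) := by
  by_cases h : g = g * u
  · rw [← h]
  · apply SimpleGraph.Adj.reachable
    simp only [Cay, SimpleGraph.fromRel_adj]
    refine ⟨h, Or.inl ?_⟩
    rw [inv_mul_cancel_left]; exact hu

theorem dist_gen (g u : LampGp) (hu : u ∈ gens) : Cay.dist g (g * u) ≤ 1 := by
  by_cases h : g = g * u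
  · rw [← h]; simp
  · have : Cay.Adj g (g * u) := by
      simp only [Cay, SimpleGraph.fromRel_adj]
      refine ⟨h, Or.inl ?_⟩
      rw [inv_mul_cancel_left]; exact hu
    rw [SimpleGraph.dist_eq_one_iff_adj.mpr this]

theorem reach_all (h : LampGp) : ∀ g, Cay.Reachable g (g * h) := by
  have hh : h ∈ Subgroup.closure (gens : Set LampGp) := by
    rw [closure_gens]; trivial
  induction hh using Subgroup.closure_induction with
  | mem u hu => exact fun g => reach_gen g u (by exact_mod_cast hu)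
  | one => intro g; rw [mul_one]
  | mul u v _ _ hu hv =>
    intro g
    rw [← mul_assoc]
    exact (hu g).trans (hv (g * u))
  | inv u _ hu =>
    intro g
    have := hu (g * u⁻¹)
    rw [inv_mul_cancel_right] at this
    exact this.symm

theorem cay_preconnected : Cay.Preconnected := by
  intro g h
  have := reach_all (g⁻¹ * h) g
  rwa [mul_inv_cancel_left] at this

theorem cay_connected : Cay.Connected := ⟨cay_preconnected⟩

theorem dist_bdd (h : LampGp) : ∃ D : ℕ, ∀ g, Cay.dist g (g * h) ≤ D := by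
  have hh : h ∈ Subgroup.closure (gens : Set LampGp) := by
    rw [closure_gens]; trivial
  induction hh using Subgroup.closure_induction with
  | mem u hu => exact ⟨1, fun g => dist_gen g u (by exact_mod_cast hu)⟩
  | one => exact ⟨0, fun g => by rw [mul_one]; simp⟩
  | mul u v _ _ hu hv =>
    obtain ⟨D1, h1⟩ := hu
    obtain ⟨D2, h2⟩ := hv
    refine ⟨D1 + D2, fun g => ?_⟩
    rw [← mul_assoc]
    exact (cay_connected.dist_triangle (v := g * u)).trans (Nat.add_le_add (h1 g) (h2 (g * u)))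
  | inv u _ hu =>
    obtain ⟨D, h1⟩ := hu
    refine ⟨D, fun g => ?_⟩
    have := h1 (g * u⁻¹)
    rw [inv_mul_cancel_right] at this
    rw [SimpleGraph.dist_comm]
    exact this

theorem walk_bound {g h : LampGp} (w : Cay.Walk g h) :
    |g.q.x - h.q.x| ≤ w.length ∧ |g.q.y - h.q.y| ≤ w.length ∧
      ∀ p ∈ g.s ∆ h.s, |g.q.x - p.x| ≤ w.length ∧ |g.q.y - p.y| ≤ w.length := by
  induction w with
  | nil => simp
  | @cons g g' h hadj w ih =>
    obtain ⟨ih1, ih2, ih3⟩ := ih
    have hn := near_of_adj hadj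
    have hx : |g.q.x - g'.q.x| ≤ 1 := by
      rcases hn with ⟨h1, -⟩ | ⟨-, h1, -⟩
      · rw [h1]; simp
      · exact h1
    have hy : |g.q.y - g'.q.y| ≤ 1 := by
      rcases hn with ⟨h1, -⟩ | ⟨-, -, h1⟩
      · rw [h1]; simp
      · exact h1
    have hs : g.s ∆ g'.s ⊆ {g.q} := by
      rcases hn with ⟨-, h1⟩ | ⟨h1, -, -⟩
      · rw [h1]
      · rw [h1]; simp
    simp only [SimpleGraph.Walk.length_cons]
    push_cast
    refine ⟨?_, ?_, ?_⟩
    · rw [abs_le] at *
      constructor <;> linarith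
    · rw [abs_le] at *
      constructor <;> linarith
    · intro p hp
      by_cases hp1 : p ∈ g.s ∆ g'.s
      · have := Finset.mem_singleton.mp (hs hp1)
        rw [this]
        simp only [sub_self, abs_zero]
        constructor <;> positivity
      · have hp2 : p ∈ g'.s ∆ h.s := by
          simp only [Finset.mem_symmDiff] at hp hp1 ⊢
          tauto
        obtain ⟨h3, h4⟩ := ih3 p hp2
        rw [abs_le] at *
        refine ⟨⟨?_, ?_⟩, ?_⟩
        · linarith
        · linarith
        · rw [abs_le] at *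
          constructor <;> linarith

theorem dist_bound (g h : LampGp) :
    |g.q.x - h.q.x| ≤ Cay.dist g h ∧ |g.q.y - h.q.y| ≤ Cay.dist g h ∧
      ∀ p ∈ g.s ∆ h.s, |g.q.x - p.x| ≤ Cay.dist g h ∧ |g.q.y - p.y| ≤ Cay.dist g h := by
  obtain ⟨w, hw⟩ := (cay_preconnected g h).exists_walk_length_eq_dist
  rw [← hw]
  exact walk_bound w

end LampGp

end Pool.Agent.H14
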