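import Mathlib
import Pool.Agent.H14.LampGeom

/-!
Asymptotic dimension and coarse separation in the lamplighter group.
-/

set_option autoImplicit false

namespace Pool.Agent.H14

open scoped Pointwise symmDiff

namespace LampGp

/-- `asdim Y ≤ k` for a subset of the Cayley graph. -/
def AsdimLE (Y : Set LampGp) (k : ℕ) : Prop :=
  ∀ R : ℕ, ∃ 𝒰 : Set (Set LampGp), (∀ U ∈ 𝒰, U ⊆ Y) ∧ Y ⊆ ⋃₀ 𝒰 ∧
    (∃ D : ℕ, ∀ U ∈ 𝒰, ∀ a ∈ U, ∀ b ∈ U, Cay.dist a b ≤ D) ∧
    ∀ y ∈ Y, {U ∈ 𝒰 | ∃ z ∈ U, Cay.dist y z ≤ R}.encard ≤ (k + 1 : ℕ∞)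

/-- grid points -/
def gp (i j : ℕ) : LampGp := mv (TriGp.tr i j)

theorem gp_right (i j : ℕ) : gp (i + 1) j = gp i j * mv TriGp.t1 := by
  rw [gp, gp, mv_mul, TriGp.t1]
  congr 1

theorem gp_up (i j : ℕ) : gp i (j + 1) = gp i j * mv TriGp.t2 := by
  rw [gp, gp, mv_mul, TriGp.t2]
  congr 1

theorem dist_gp_right (i j : ℕ) : Cay.dist (gp i j) (gp (i + 1) j) ≤ 1 := by
  rw [gp_right]; exact dist_gen _ _ t1_mem

theorem dist_gp_up (i j : ℕ) : Cay.dist (gp i j) (gp i (j + 1)) ≤ 1 := by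
  rw [gp_up]; exact dist_gen _ _ t2_mem

theorem gp_x (i j : ℕ) : (gp i j).q.x = i := rfl
theorem gp_y (i j : ℕ) : (gp i j).q.y = j := rfl

theorem three_encard {α : Type} (S : Set α) (a b c : α) (ha : a ∈ S) (hb : b ∈ S) (hc : c ∈ S)
    (hab : a ≠ b) (hbc : b ≠ c) (hac : a ≠ c) (h : S.encard ≤ 2) : False := by
  have h1 : ({a, b, c} : Set α) ⊆ S := by
    rintro x (rfl | rfl | rfl)
    · exact ha
    · exact hb
    · exact hc
  have h2 : ({a, b, c} : Set α).encard = 3 := by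
    rw [Set.encard_insert_of_notMem (by simp [hab, hac]), Set.encard_pair hbc]
    norm_num
  have h3 := (Set.encard_le_encard h1).trans h
  rw [h2] at h3
  exact absurd h3 (by decide)

/-- The lamplighter group has asymptotic dimension at least two. -/
theorem not_asdim_one : ¬ AsdimLE Set.univ (0 + 1) := by
  classical
  intro h
  obtain ⟨𝒰, -, hcov, ⟨D, hD⟩, hmul⟩ := h 1
  have hU : ∀ g : LampGp, ∃ U ∈ 𝒰, g ∈ U := by
    intro g
    obtain ⟨U, hU, hg⟩ := hcov (Set.mem_univ g)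
    exact ⟨U, hU, hg⟩
  choose U hU𝒰 hgU using hU
  set N : ℕ := D + 1 with hN
  let col : Set LampGp → Fin 3 := fun V =>
    if ∀ i ≤ N, gp i 0 ∉ V then 0 else if ∀ j ≤ N, gp N j ∉ V then 1 else 2
  have hcol0 : ∀ V, col V = 0 → ∀ i ≤ N, gp i 0 ∉ V := by
    intro V hV
    by_contra hcon
    simp only [col, if_neg hcon] at hV
    split_ifs at hV <;> exact absurd hV (by decide)
  have hcol1 : ∀ V, col V = 1 → ∀ j ≤ N, gp N j ∉ V := by
    intro V hV
    by_contra hcon
    simp only [col, if_neg hcon] at hV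
    split_ifs at hV <;> exact absurd hV (by decide)
  have hcol2 : ∀ V, col V = 2 → (∃ i ≤ N, gp i 0 ∈ V) ∧ (∃ j ≤ N, gp N j ∈ V) := by
    intro V hV
    constructor
    · by_contra hcon
      push Not at hcon
      simp only [col, if_pos hcon] at hV
      exact absurd hV (by decide)
    · by_contra hcon
      push Not at hcon
      simp only [col, if_pos hcon] at hV
      split_ifs at hV <;> exact absurd hV (by decide)
  obtain ⟨i, hi, j, hj, hcase⟩ := sperner_square N (fun i j => col (U (gp i j)))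
    (by
      intro i hi hc
      exact hcol0 _ hc i hi (hgU _))
    (by
      intro j hj hc
      exact hcol1 _ hc j hj (hgU _))
    (by
      intro i hi hc
      obtain ⟨⟨i', -, h1⟩, -⟩ := hcol2 _ hc
      have h2 := hD _ (hU𝒰 _) _ h1 _ (hgU (gp i N))
      have h3 := (dist_bound (gp i' 0) (gp i N)).2.1
      rw [gp_y, gp_y, abs_le] at h3
      push_cast at h3
      have h4 : (Cay.dist (gp i' 0) (gp i N) : ℤ) ≤ D := by exact_mod_cast h2
      omega)
    (by
      intro j hj hc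
      obtain ⟨-, ⟨j', -, h1⟩⟩ := hcol2 _ hc
      have h2 := hD _ (hU𝒰 _) _ h1 _ (hgU (gp 0 j))
      have h3 := (dist_bound (gp N j') (gp 0 j)).1
      rw [gp_x, gp_x, abs_le] at h3
      push_cast at h3
      have h4 : (Cay.dist (gp N j') (gp 0 j) : ℤ) ≤ D := by exact_mod_cast h2
      omega)
  have hfin : ∀ a b c : LampGp, Cay.dist b a ≤ 1 → Cay.dist b c ≤ 1 →
      col (U a) ≠ col (U b) → col (U b) ≠ col (U c) → col (U a) ≠ col (U c) → False := by
    intro a b c hba hbc h1 h2 h3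
    have h4 := hmul b (Set.mem_univ b)
    refine three_encard {V ∈ 𝒰 | ∃ z ∈ V, Cay.dist b z ≤ 1} (U a) (U b) (U c) ?_ ?_ ?_ (fun h => h1 (by rw [h]))
      (fun h => h2 (by rw [h])) (fun h => h3 (by rw [h])) ?_
    · exact ⟨hU𝒰 _, a, hgU a, hba⟩
    · exact ⟨hU𝒰 _, b, hgU b, by simp⟩
    · exact ⟨hU𝒰 _, c, hgU c, hbc⟩
    · refine h4.trans ?_
      norm_num
  rcases hcase with ⟨h1, h2, h3⟩ | ⟨h1, h2, h3⟩
  · refine hfin (gp i j) (gp (i + 1) j) (gp (i + 1) (j + 1)) ?_ ?_ h1 h2 h3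
    · rw [SimpleGraph.dist_comm]; exact dist_gp_right i j
    · exact dist_gp_up (i + 1) j
  · refine hfin (gp i j) (gp i (j + 1)) (gp (i + 1) (j + 1)) ?_ ?_ h1 h2 h3
    · rw [SimpleGraph.dist_comm]; exact dist_gp_up i j
    · exact dist_gp_right i (j + 1)

/-- The base group. -/
def base : Set LampGp := {g | g.q = 1}

/-- the lamps outside the ball -/
noncomputable def cls (R : ℕ) (s : Finset TriGp) : Finset TriGp := s.filter (fun p => ¬ (|p.x| ≤ R ∧ |p.y| ≤ R))

/-- the ball in the triangle group as a finite set -/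
noncomputable def ball (R : ℕ) : Finset TriGp :=
  ((Finset.Icc (-(R : ℤ)) R ×ˢ Finset.Icc (-(R : ℤ)) R) ×ˢ (Finset.univ : Finset (ZMod 3))).image
    (fun p => ⟨p.1.1, p.1.2, p.2⟩)

theorem mem_ball (R : ℕ) (p : TriGp) (h1 : |p.x| ≤ R) (h2 : |p.y| ≤ R) : p ∈ ball R := by
  simp only [ball, Finset.mem_image, Finset.mem_product, Finset.mem_Icc, Finset.mem_univ,
    and_true, Prod.exists]
  rw [abs_le] at h1 h2
  exact ⟨p.x, p.y, p.k, ⟨h1, h2⟩, rfl⟩

theorem base_asdim : AsdimLE base 0 := by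
  classical
  intro R
  let UU : Finset TriGp → Set LampGp := fun A => {g | g.q = 1 ∧ cls R g.s = A}
  choose Dh hDh using dist_bdd
  refine ⟨Set.range UU, ?_, ?_, ?_, ?_⟩
  · rintro _ ⟨A, rfl⟩ g hg
    exact hg.1
  · intro g hg
    exact ⟨UU (cls R g.s), ⟨_, rfl⟩, hg, rfl⟩
  · refine ⟨(ball R).powerset.sup (fun u => Dh ⟨u, 1⟩), ?_⟩
    rintro _ ⟨A, rfl⟩ a ha b hb
    obtain ⟨ha1, ha2⟩ := ha
    obtain ⟨hb1, hb2⟩ := hb
    have h1 : b = a * ⟨a.s ∆ b.s, 1⟩ := by
      ext1
      · simp only [mul_s, ha1, one_smul]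
        rw [symmDiff_symmDiff_cancel_left]
      · simp [ha1, hb1]
    have h2 : a.s ∆ b.s ∈ (ball R).powerset := by
      rw [Finset.mem_powerset]
      intro p hp
      by_contra hcon
      have h3 : ¬ (|p.x| ≤ R ∧ |p.y| ≤ R) := fun h => hcon (mem_ball R p h.1 h.2)
      have h4 : p ∈ cls R a.s ↔ p ∈ cls R b.s := by rw [ha2, hb2]
      simp only [cls, Finset.mem_filter, h3, not_false_eq_true, and_true] at h4
      simp only [Finset.mem_symmDiff] at hp
      tauto
    calc Cay.dist a b = Cay.dist a (a * ⟨a.s ∆ b.s, 1⟩) := by rw [← h1]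
      _ ≤ Dh ⟨a.s ∆ b.s, 1⟩ := hDh _ _
      _ ≤ _ := Finset.le_sup (f := fun u => Dh ⟨u, 1⟩) h2
  · intro y hy
    have hsub : {U ∈ Set.range UU | ∃ z ∈ U, Cay.dist y z ≤ R} ⊆ {UU (cls R y.s)} := by
      rintro _ ⟨⟨A, rfl⟩, z, ⟨hz1, hz2⟩, hz3⟩
      rw [Set.mem_singleton_iff]
      congr 1
      rw [← hz2]
      ext p
      have hb := (dist_bound y z).2.2 p
      have hy' : y.q = 1 := hy
      rw [hy'] at hb
      simp only [TriGp.one_x, TriGp.one_y, zero_sub, abs_neg] at hb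
      simp only [cls, Finset.mem_filter]
      by_cases hp : |p.x| ≤ R ∧ |p.y| ≤ R
      · simp [hp]
      · have : p ∉ y.s ∆ z.s := by
          intro h
          obtain ⟨h1, h2⟩ := hb h
          have h5 : (Cay.dist y z : ℤ) ≤ R := by exact_mod_cast hz3
          exact hp ⟨h1.trans h5, h2.trans h5⟩
        simp only [Finset.mem_symmDiff] at this
        tauto
    refine (Set.encard_le_encard hsub).trans ?_
    rw [Set.encard_singleton]
    simp

/-- complement of the 1-neighbourhood of the base group -/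
def Om : Set LampGp := {v : LampGp | ∀ x ∈ base, 1 < Cay.dist v x}

theorem mem_Om_q {v : LampGp} (hv : v ∈ Om) : v.q ≠ 1 := by
  intro h
  have := hv v h
  simp at this

/-- far away vertices -/
def far (s : Finset TriGp) (n : ℕ) : LampGp := ⟨s, TriGp.tr n 0⟩

theorem far_dist (s : Finset TriGp) (n : ℕ) (x : LampGp) (hx : x ∈ base) :
    n ≤ Cay.dist (far s n) x := by
  have h1 := (dist_bound (far s n) x).1
  have h2 : x.q = 1 := hx
  rw [h2] at h1
  simp only [far, TriGp.tr, TriGp.one_x, sub_zero, Nat.abs_cast] at h1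
  exact_mod_cast h1

theorem far_mem (s : Finset TriGp) (n : ℕ) : far s (n + 2) ∈ Om := by
  intro x hx
  have := far_dist s (n + 2) x hx
  omega

theorem far_adj (s : Finset TriGp) (n : ℕ) : Cay.Adj (far s n) (far s (n + 1)) := by
  simp only [Cay, SimpleGraph.fromRel_adj]
  have h : far s (n + 1) = far s n * mv TriGp.t1 := by
    ext1
    · simp only [far, mul_s, mv, Finset.smul_finset_empty]
      rw [symmDiff_empty']
    · simp only [far, mul_q, mv]
      ext <;> simp [TriGp.tr, TriGp.t1]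
  refine ⟨?_, Or.inl ?_⟩
  · intro h1
    have h2 := congrArg (fun g => g.q.x) h1
    simp only [far, TriGp.tr] at h2
    push_cast at h2
    omega
  · rw [h, inv_mul_cancel_left]; exact t1_mem

theorem far_reach (s : Finset TriGp) (n : ℕ) :
    (Cay.induce Om).Reachable ⟨far s 2, far_mem s 0⟩ ⟨far s (n + 2), far_mem s n⟩ := by
  induction n with
  | zero => exact SimpleGraph.Reachable.refl _
  | succ n ih =>
    refine ih.trans (SimpleGraph.Adj.reachable ?_)
    rw [SimpleGraph.induce_adj]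
    exact far_adj s (n + 2)

theorem lamp_inv {v w : Om} (h : (Cay.induce Om).Reachable v w) :
    (1 : TriGp) ∈ (v : LampGp).s ↔ (1 : TriGp) ∈ (w : LampGp).s := by
  obtain ⟨p⟩ := h
  induction p with
  | nil => rfl
  | @cons a b c hadj p ih =>
    rw [← ih]
    rw [SimpleGraph.induce_adj] at hadj
    have hn := near_of_adj hadj
    rcases hn with ⟨-, h1⟩ | ⟨h1, -, -⟩
    · have h2 : (1 : TriGp) ∉ (a : LampGp).s ∆ (b : LampGp).s := by
        rw [h1, Finset.mem_singleton]
        exact fun h => mem_Om_q a.2 h.symm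
      simp only [Finset.mem_symmDiff] at h2
      tauto
    · rw [h1]

/-- The base group coarsely separates the lamplighter group (with `r = 1`). -/
theorem separation :
    ∃ r : ℕ, ∃ Ω : Set LampGp, Ω = {v : LampGp | ∀ x ∈ base, r < Cay.dist v x} ∧
    ∃ C₁ C₂ : (Cay.induce Ω).ConnectedComponent, C₁ ≠ C₂ ∧
      ∀ C : (Cay.induce Ω).ConnectedComponent, (C = C₁ ∨ C = C₂) →
        ∀ D : ℕ, ∃ v : Ω, (Cay.induce Ω).connectedComponentMk v = C ∧
          ∀ x ∈ base, D < Cay.dist (v : LampGp) x := by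
  refine ⟨1, Om, rfl, (Cay.induce Om).connectedComponentMk ⟨far ∅ 2, far_mem ∅ 0⟩,
    (Cay.induce Om).connectedComponentMk ⟨far {1} 2, far_mem {1} 0⟩, ?_, ?_⟩
  · intro h
    have h1 := SimpleGraph.ConnectedComponent.exact h
    have h2 := lamp_inv h1
    simp [far] at h2
  · intro C hC D
    rcases hC with rfl | rfl
    · refine ⟨⟨far ∅ (D + 2), far_mem ∅ D⟩, ?_, ?_⟩
      · exact (SimpleGraph.ConnectedComponent.sound (far_reach ∅ D)).symm
      · intro x hx
        have h1 := far_dist ∅ (D + 2) x hx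
        exact lt_of_lt_of_le (by omega) h1
    · refine ⟨⟨far {1} (D + 2), far_mem {1} D⟩, ?_, ?_⟩
      · exact (SimpleGraph.ConnectedComponent.sound (far_reach {1} D)).symm
      · intro x hx
        have h1 := far_dist {1} (D + 2) x hx
        exact lt_of_lt_of_le (by omega) h1

end LampGp

end Pool.Agent.H14
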